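import Pool.Agent.H.MP_32f763_nt.Main

namespace Pool.Agent.Results.MP_32f763_nt.No

/-- the continued logarithm list `cl(p,q)` for `p ≥ q ≥ 1` (empty list otherwise); `k` is the
integer with `2^k ≤ p/q < 2^(k+1)` -/
def cl (p q : ℕ) : List ℕ :=
  if h : q = 0 ∨ p < q then []
  else if p = 2 ^ Nat.log 2 (p / q) * q then [Nat.log 2 (p / q)]
  else Nat.log 2 (p / q) :: cl (2 ^ Nat.log 2 (p / q) * q) (p - 2 ^ Nat.log 2 (p / q) * q)
termination_by p + q
decreasing_by
  have hq : 0 < q := by omega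
  have h1 : 0 < p / q := Nat.div_pos (by omega) hq
  have h2 : 2 ^ Nat.log 2 (p / q) ≤ p / q := Nat.pow_log_le_self 2 (by omega)
  have h3 : 2 ^ Nat.log 2 (p / q) * q ≤ p :=
    (Nat.mul_le_mul_right q h2).trans (Nat.div_mul_le_self p q)
  omega

/-- `L n` is the length of `cl(n,1)` (and `L 0 = 0`) -/
def L (n : ℕ) : ℤ := (cl n 1).length

/-- the `ℤ`-module generated by the `k`-kernel of `a` is finitely generated -/
def IsRegularSeq (k : ℕ) (a : ℕ → ℤ) : Prop :=
  (Submodule.span ℤ {u : ℕ → ℤ | ∃ e r : ℕ, r < k ^ e ∧ u = fun n => a (k ^ e * n + r)}).FG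

lemma cl_eq (p q : ℕ) : cl p q = Pool.Agent.H.MP_32f763_nt.cl p q := by
  induction p, q using cl.induct with
  | case1 p q h => rw [cl, Pool.Agent.H.MP_32f763_nt.cl, dif_pos h, dif_pos h]
  | case2 p q h h2 =>
    rw [cl, Pool.Agent.H.MP_32f763_nt.cl, dif_neg h, dif_neg h, if_pos h2, if_pos h2]
  | case3 p q h h2 ih =>
    rw [cl, Pool.Agent.H.MP_32f763_nt.cl, dif_neg h, dif_neg h, if_neg h2, if_neg h2, ih]

theorem result : ∀ k : ℕ, 2 ≤ k → ¬ IsRegularSeq k L := by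
  intro k hk h
  apply Pool.Agent.H.MP_32f763_nt.not_fg hk
  simp only [IsRegularSeq, L, cl_eq] at h
  exact h

end Pool.Agent.Results.MP_32f763_nt.No
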